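import Mathlib
import Pool.Agent.H26.NullFinite

set_option autoImplicit false

open Set Filter Topology MeasureTheory

namespace Pool.Agent.Results.MP_ea2cf4_gt.NotCovered

variable {X : Type} [AddCommGroup X] [TopologicalSpace X] [MeasurableSpace X]

/-- Null-finite sets. -/
def NullFinite (B : Set X) : Prop :=
  ∃ x : ℕ → X, Tendsto x atTop (𝓝 0) ∧ ∀ y : X, {k | y + x k ∈ B}.Finite

/-- Haar-null sets in the sense of Christensen. -/
def HaarNull (B : Set X) : Prop :=
  ∃ μ : Measure X, IsProbabilityMeasure μ ∧ ∀ x, μ ((· + x) '' B) = 0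

theorem result : ∃ (X : Type) (_ : AddCommGroup X) (_ : TopologicalSpace X) (_ : MeasurableSpace X),
    IsTopologicalAddGroup X ∧ PolishSpace X ∧ BorelSpace X ∧ ∃ F : Set X, IsClosed F ∧ HaarNull F ∧
      ∀ B : ℕ → Set X, (∀ k, MeasurableSet (B k) ∧ NullFinite (B k)) → ¬ F ⊆ ⋃ k, B k :=
  ⟨∀ n : ℕ, ZMod (n + 2), inferInstance, inferInstance, inferInstance, inferInstance, inferInstance,
    inferInstance, _, H26.NullFinite.closed 0, H26.NullFinite.null, fun B hB =>
      H26.NullFinite.not_covered (fun n => (Nat.card_zmod _).ge) B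
        (fun k => BorelSpace.measurable_eq (α := ∀ n : ℕ, ZMod (n + 2)) ▸ (hB k).1) fun k => (hB k).2⟩

end Pool.Agent.Results.MP_ea2cf4_gt.NotCovered
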